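import Mathlib

/-!
The composition of two indestructible Blaschke products is an indestructible Blaschke product.
-/

open Filter Topology Set
open scoped NNReal ComplexConjugate

namespace Pool.Agent.Results.MP_4d1c53_an.CompositionIndestructible

/-- The factor `(|a| / a) (a - z) / (1 - conj a * z)` of a Blaschke product. -/
noncomputable def factor (a z : ℂ) : ℂ := ((‖a‖ : ℂ) / a) * ((a - z) / (1 - conj a * z))

/-- `B` is (on the open unit disc) a Blaschke product: it is nonconstant on the disc and there it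
equals `e^{iθ} z^m ∏_i (|a_i| / a_i) (a_i - z) / (1 - conj a_i z)`, for a finite or countably infinite
family `a_i` of nonzero points of the disc with `∑ (1 - |a_i|) < ∞`. -/
def IsBlaschkeProduct (B : ℂ → ℂ) : Prop :=
  (∃ z ∈ Metric.ball (0 : ℂ) 1, ∃ w ∈ Metric.ball (0 : ℂ) 1, B z ≠ B w) ∧
  ∃ (θ : ℝ) (m : ℕ) (ι : Type) (a : ι → ℂ), Countable ι ∧ (∀ i, a i ≠ 0 ∧ ‖a i‖ < 1) ∧
    Summable (fun i => 1 - ‖a i‖) ∧
    ∀ z ∈ Metric.ball (0 : ℂ) 1, ∃ P : ℂ, HasProd (fun i => factor (a i) z) P ∧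
      B z = Complex.exp (θ * Complex.I) * z ^ m * P

/-- The conformal automorphism `w ↦ e^{iφ} (w - a) / (1 - conj a * w)` of the disc. -/
noncomputable def auto (φ : ℝ) (a : ℂ) (w : ℂ) : ℂ :=
  Complex.exp (φ * Complex.I) * ((w - a) / (1 - conj a * w))

/-- `B` is an indestructible Blaschke product: `T ∘ B` is a Blaschke product for every conformal
automorphism `T` of the disc. -/
def IsIndestructible (B : ℂ → ℂ) : Prop :=
  IsBlaschkeProduct B ∧
  ∀ (φ : ℝ) (a : ℂ), ‖a‖ < 1 → IsBlaschkeProduct (fun z => auto φ a (B z))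

/-- the pseudo-hyperbolic distance. -/
noncomputable def rho (a z : ℂ) : ℝ≥0 := ‖(a - z) / (1 - conj a * z)‖₊

lemma den_ne {a z : ℂ} (ha : ‖a‖ < 1) (hz : ‖z‖ < 1) : 1 - conj a * z ≠ 0 := by
  intro h
  have h1 : conj a * z = 1 := by
    have := sub_eq_zero.mp h
    exact this.symm
  have h2 : ‖conj a * z‖ = 1 := by rw [h1, norm_one]
  rw [norm_mul, RCLike.norm_conj] at h2
  have : ‖a‖ * ‖z‖ < 1 := by nlinarith [norm_nonneg a, norm_nonneg z]
  linarith

lemma rho_identity {a z : ℂ} :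
    Complex.normSq (1 - conj a * z) - Complex.normSq (a - z)
      = (1 - Complex.normSq a) * (1 - Complex.normSq z) := by
  simp only [Complex.normSq_apply, Complex.sub_re, Complex.sub_im, Complex.mul_re, Complex.mul_im,
    Complex.one_re, Complex.one_im, Complex.conj_re, Complex.conj_im]
  ring

lemma rho_sq {a z : ℂ} (ha : ‖a‖ < 1) (hz : ‖z‖ < 1) :
    1 - ((rho a z : ℝ)) ^ 2 = (1 - ‖a‖ ^ 2) * (1 - ‖z‖ ^ 2) / ‖1 - conj a * z‖ ^ 2 := by
  have hd := den_ne ha hz
  have hn : ‖1 - conj a * z‖ ^ 2 ≠ 0 := pow_ne_zero 2 (norm_ne_zero_iff.mpr hd)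
  have := rho_identity (a := a) (z := z)
  simp only [Complex.normSq_eq_norm_sq] at this
  unfold rho
  rw [coe_nnnorm, norm_div, div_pow, eq_div_iff hn, sub_mul, div_mul_cancel₀ _ hn, one_mul]
  exact this

lemma rho_lt_one {a z : ℂ} (ha : ‖a‖ < 1) (hz : ‖z‖ < 1) : (rho a z : ℝ) < 1 := by
  have h := rho_sq ha hz
  have hd := den_ne ha hz
  have hn : 0 < ‖1 - conj a * z‖ ^ 2 := pow_pos (norm_pos_iff.mpr hd) 2
  have h1 : 0 < 1 - ‖a‖ ^ 2 := by nlinarith [norm_nonneg a]
  have h2 : 0 < 1 - ‖z‖ ^ 2 := by nlinarith [norm_nonneg z]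
  have h3 : 0 < 1 - ((rho a z : ℝ)) ^ 2 := by
    rw [h]; positivity
  nlinarith [(rho a z).coe_nonneg]

lemma rho_le_one {a z : ℂ} (ha : ‖a‖ < 1) (hz : ‖z‖ < 1) : rho a z ≤ 1 := by
  have := rho_lt_one ha hz
  exact_mod_cast this.le

lemma rho_zero (z : ℂ) : rho 0 z = ‖z‖₊ := by
  unfold rho
  simp

lemma rho_swap_auto (φ : ℝ) (a w : ℂ) : ‖auto φ a w‖₊ = rho a w := by
  unfold auto rho
  rw [nnnorm_mul]
  have h1 : ‖Complex.exp (φ * Complex.I)‖₊ = 1 := by
    apply NNReal.eq
    rw [coe_nnnorm, Complex.norm_exp_ofReal_mul_I]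
    rfl
  rw [h1, one_mul, nnnorm_div, nnnorm_div]
  congr 1
  apply NNReal.eq
  exact norm_sub_rev _ _

lemma factor_nnnorm {a : ℂ} (ha0 : a ≠ 0) (z : ℂ) : ‖factor a z‖₊ = rho a z := by
  unfold factor rho
  rw [nnnorm_mul]
  have : ‖((‖a‖ : ℂ) / a)‖₊ = 1 := by
    apply NNReal.eq
    rw [coe_nnnorm, norm_div, Complex.norm_real, norm_norm, div_self (norm_ne_zero_iff.mpr ha0)]
    rfl
  rw [this, one_mul]

lemma factor_sub_one {a z : ℂ} (ha0 : a ≠ 0) (hd : 1 - conj a * z ≠ 0) :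
    factor a z - 1 = -((1 - ‖a‖ : ℝ) : ℂ) * ((a + ‖a‖ * z) / (a * (1 - conj a * z))) := by
  unfold factor
  have hc : a * conj a = (‖a‖ : ℂ) ^ 2 := by
    rw [Complex.mul_conj, Complex.normSq_eq_norm_sq]; push_cast; rfl
  rw [div_mul_div_comm, div_sub_one (mul_ne_zero ha0 hd), mul_div_assoc']
  congr 1
  push_cast
  have : a * (1 - conj a * z) = a - (‖a‖ : ℂ) ^ 2 * z := by
    rw [← hc]; ring
  rw [this]
  ring

lemma factor_bound {a z : ℂ} {r : ℝ} (hr : r < 1) (ha0 : a ≠ 0) (ha : ‖a‖ < 1) (hz : ‖z‖ < r) :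
    ‖factor a z - 1‖ ≤ (1 - ‖a‖) * (2 / (1 - r)) := by
  have hz1 : ‖z‖ < 1 := hz.trans hr
  have hd := den_ne ha hz1
  rw [factor_sub_one ha0 hd, norm_mul, norm_neg, Complex.norm_real, Real.norm_eq_abs,
    abs_of_nonneg (by linarith)]
  apply mul_le_mul_of_nonneg_left _ (by linarith)
  rw [norm_div, norm_mul]
  have hapos : 0 < ‖a‖ := norm_pos_iff.mpr ha0
  have h1 : ‖a + ‖a‖ * z‖ ≤ ‖a‖ * 2 := by
    refine (norm_add_le _ _).trans ?_
    rw [norm_mul, Complex.norm_real, norm_norm]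
    nlinarith
  have h2 : 1 - r ≤ ‖1 - conj a * z‖ := by
    have h3 : ‖conj a * z‖ ≤ r := by
      rw [norm_mul, RCLike.norm_conj]
      nlinarith [norm_nonneg z, norm_nonneg a]
    have h4 := norm_sub_norm_le (1:ℂ) (conj a * z)
    rw [norm_one] at h4
    linarith
  have h5 : 0 < 1 - r := by linarith
  calc ‖a + ‖a‖ * z‖ / (‖a‖ * ‖1 - conj a * z‖) ≤ (‖a‖ * 2) / (‖a‖ * (1 - r)) := by
        gcongr
    _ = 2 / (1 - r) := by
        rw [mul_div_mul_left _ _ hapos.ne']

/-- a convergent product of factors, as a function. -/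
lemma prod_diff {ι : Type} (a : ι → ℂ) (ha : ∀ i, a i ≠ 0 ∧ ‖a i‖ < 1)
    (hs : Summable (fun i => 1 - ‖a i‖)) :
    DifferentiableOn ℂ (fun z => ∏' i, factor (a i) z) (Metric.ball 0 1) ∧
    ∀ z ∈ Metric.ball (0:ℂ) 1, HasProd (fun i => factor (a i) z) (∏' i, factor (a i) z) := by
  have key : ∀ r : ℝ, r < 1 →
      HasProdLocallyUniformlyOn (fun i z => 1 + (factor (a i) z - 1))
        (fun z => ∏' i, (1 + (factor (a i) z - 1))) (Metric.ball (0:ℂ) r) := by
    intro r hr
    apply Summable.hasProdLocallyUniformlyOn_one_add Metric.isOpen_ball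
      (hs.mul_right (2 / (1 - r)))
    · refine Eventually.of_forall (fun i z hz => ?_)
      exact factor_bound hr (ha i).1 (ha i).2 (by simpa using hz)
    · intro i
      have : ContinuousOn (fun z => factor (a i) z) (Metric.ball (0:ℂ) r) := by
        unfold factor
        apply ContinuousOn.mul continuousOn_const
        apply ContinuousOn.div (by fun_prop) (by fun_prop)
        intro z hz
        exact den_ne (ha i).2 ((by simpa using hz : ‖z‖ < r).trans hr)
      exact this.sub continuousOn_const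
  have e : (fun z => ∏' i, (1 + (factor (a i) z - 1))) = fun z => ∏' i, factor (a i) z := by
    funext z
    congr 1
    funext i
    ring
  have e' : (fun (i : ι) (z : ℂ) => 1 + (factor (a i) z - 1)) = fun i z => factor (a i) z := by
    funext i z
    ring
  rw [e, e'] at key
  have hfd : ∀ i, DifferentiableOn ℂ (fun z => factor (a i) z) (Metric.ball (0:ℂ) 1) := by
    intro i
    unfold factor
    apply DifferentiableOn.const_mul
    apply DifferentiableOn.div (by fun_prop) (by fun_prop)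
    intro z hz
    exact den_ne (ha i).2 (by simpa using hz)
  constructor
  · intro z hz
    have hz' : ‖z‖ < 1 := by simpa using hz
    obtain ⟨r, hr1, hr2⟩ := exists_between hz'
    have hdiff : DifferentiableOn ℂ (fun z => ∏' i, factor (a i) z) (Metric.ball (0:ℂ) r) := by
      refine (key r hr2).differentiableOn (.of_forall fun s => ?_) Metric.isOpen_ball
      have : DifferentiableOn ℂ (fun z => ∏ i ∈ s, factor (a i) z) (Metric.ball (0:ℂ) r) :=
        DifferentiableOn.fun_finsetProd (fun i _ => (hfd i).mono (Metric.ball_subset_ball hr2.le))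
      exact this
    exact (hdiff.differentiableAt (Metric.isOpen_ball.mem_nhds (by simpa using hr1))).differentiableWithinAt
  · intro z hz
    have hz' : ‖z‖ < 1 := by simpa using hz
    obtain ⟨r, hr1, hr2⟩ := exists_between hz'
    exact (key r hr2).hasProd (by simpa using hr1)

lemma blaschke_diff {B : ℂ → ℂ} (hB : IsBlaschkeProduct B) :
    DifferentiableOn ℂ B (Metric.ball 0 1) := by
  obtain ⟨-, θ, m, ι, a, -, ha, hs, h⟩ := hB
  obtain ⟨h1, h2⟩ := prod_diff a ha hs
  have : DifferentiableOn ℂ (fun z => Complex.exp (θ * Complex.I) * z ^ m * ∏' i, factor (a i) z)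
      (Metric.ball 0 1) := by
    apply DifferentiableOn.mul _ h1
    fun_prop
  apply this.congr
  intro z hz
  obtain ⟨P, hP, hBz⟩ := h z hz
  rw [hBz, (h2 z hz).unique hP]

/-- modulus of a Blaschke product as a product of pseudo-hyperbolic distances. -/
lemma blaschke_modulus {B : ℂ → ℂ} (hB : IsBlaschkeProduct B) :
    ∃ (ι : Type) (a : ι → ℂ), Countable ι ∧ (∀ i, ‖a i‖ < 1) ∧
      ∀ z ∈ Metric.ball (0:ℂ) 1, HasProd (fun i => rho (a i) z) ‖B z‖₊ := by
  obtain ⟨-, θ, m, ι, a, hc, ha, hs, h⟩ := hB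
  refine ⟨Fin m ⊕ ι, Sum.elim (fun _ => 0) a, inferInstance, ?_, ?_⟩
  · rintro (i | i)
    · simp
    · exact (ha i).2
  · intro z hz
    obtain ⟨P, hP, hBz⟩ := h z hz
    have h1 : HasProd (fun i => rho (a i) z) ‖P‖₊ := by
      have := hP.map (nnnormHom : ℂ →*₀ ℝ≥0) continuous_nnnorm
      have e : (fun i => rho (a i) z) = (nnnormHom : ℂ →*₀ ℝ≥0) ∘ fun i => factor (a i) z := by
        funext i
        exact (factor_nnnorm (ha i).1 z).symm
      rw [e]
      exact this
    have h2 : HasProd (fun _ : Fin m => ‖z‖₊) (‖z‖₊ ^ m) := by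
      have := hasProd_fintype (fun _ : Fin m => ‖z‖₊)
      simpa using this
    have h3 : ‖B z‖₊ = ‖z‖₊ ^ m * ‖P‖₊ := by
      rw [hBz, nnnorm_mul, nnnorm_mul, nnnorm_pow]
      have h1 : ‖Complex.exp (θ * Complex.I)‖₊ = 1 := by
        apply NNReal.eq
        rw [coe_nnnorm, Complex.norm_exp_ofReal_mul_I]
        rfl
      rw [h1, one_mul]
    rw [h3]
    apply HasProd.sum
    · have : ((fun i => rho (Sum.elim (fun _ => 0) a i) z) ∘ Sum.inl) = fun _ : Fin m => ‖z‖₊ := by
        funext i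
        exact rho_zero z
      rw [this]
      exact h2
    · exact h1

lemma multipliable_of_le_one {ι : Type} {f : ι → ℝ≥0} (h : ∀ i, f i ≤ 1) : Multipliable f :=
  ⟨_, hasProd_of_isGLB_of_le_one _ h
    (isGLB_csInf (range_nonempty _) (OrderBot.bddBelow _))⟩

lemma hasProd_le_finset {ι : Type} {f : ι → ℝ≥0} {b : ℝ≥0} (hf : HasProd f b) (h : ∀ i, f i ≤ 1)
    (s : Finset ι) : b ≤ ∏ i ∈ s, f i := by
  apply le_of_tendsto hf
  filter_upwards [eventually_ge_atTop s] with t ht
  exact Finset.prod_anti_set_of_le_one' h ht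

/-- a Blaschke product maps the disc into itself. -/
lemma blaschke_lt_one {B : ℂ → ℂ} (hB : IsBlaschkeProduct B) :
    ∀ z ∈ Metric.ball (0:ℂ) 1, ‖B z‖ < 1 := by
  obtain ⟨ι, a, -, ha, h⟩ := blaschke_modulus hB
  have hle : ∀ z ∈ Metric.ball (0:ℂ) 1, ‖B z‖ ≤ 1 := by
    intro z hz
    have := hasProd_le_finset (h z hz) (fun i => rho_le_one (ha i) (by simpa using hz)) ∅
    rw [Finset.prod_empty] at this
    exact_mod_cast this
  intro z hz
  by_contra hcon
  push Not at hcon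
  have h1 : ‖B z‖ = 1 := le_antisymm (hle z hz) hcon
  have hconst := Complex.eqOn_of_isPreconnected_of_isMaxOn_norm (f := B)
    (convex_ball (0:ℂ) 1).isPreconnected Metric.isOpen_ball (blaschke_diff hB) hz
    (fun w hw => by simpa [h1] using hle w hw)
  obtain ⟨⟨u, hu, v, hv, huv⟩, -⟩ := hB
  apply huv
  rw [hconst hu, hconst hv]
  rfl

/-- The converse: a holomorphic nonconstant function whose modulus is a product of
pseudo-hyperbolic distances is a Blaschke product. -/
lemma blaschke_of_modulus {F : ℂ → ℂ} (hF : DifferentiableOn ℂ F (Metric.ball 0 1))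
    (hnc : ∃ z ∈ Metric.ball (0 : ℂ) 1, ∃ w ∈ Metric.ball (0 : ℂ) 1, F z ≠ F w)
    {J : Type} (hJ : Countable J) (p : J → ℂ) (hp : ∀ j, ‖p j‖ < 1)
    (h : ∀ z ∈ Metric.ball (0:ℂ) 1, HasProd (fun j => rho (p j) z) ‖F z‖₊) :
    IsBlaschkeProduct F := by
  classical
  refine ⟨hnc, ?_⟩
  -- a point where F does not vanish
  obtain ⟨z₀, hz₀, hFz₀⟩ : ∃ z ∈ Metric.ball (0:ℂ) 1, F z ≠ 0 := by
    obtain ⟨u, hu, v, hv, huv⟩ := hnc
    by_cases hu0 : F u = 0
    · refine ⟨v, hv, fun hv0 => huv (by rw [hu0, hv0])⟩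
    · exact ⟨u, hu, hu0⟩
  have hz₀' : ‖z₀‖ < 1 := by simpa using hz₀
  -- Blaschke condition
  have hsum : Summable (fun j => 1 - ‖p j‖) := by
    have hpos : 0 < ‖F z₀‖ := norm_pos_iff.mpr hFz₀
    have hρ : ∀ j, 0 < (rho (p j) z₀ : ℝ) := by
      intro j
      have := hasProd_le_finset (h z₀ hz₀) (fun i => rho_le_one (hp i) hz₀') {j}
      rw [Finset.prod_singleton] at this
      have h2 : ‖F z₀‖ ≤ (rho (p j) z₀ : ℝ) := by exact_mod_cast this
      linarith
    have hs1 : Summable (fun j => 1 - (rho (p j) z₀ : ℝ)) := by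
      apply summable_of_sum_le (c := -Real.log ‖F z₀‖)
      · intro j
        have := rho_lt_one (hp j) hz₀'
        show 0 ≤ 1 - (rho (p j) z₀ : ℝ)
        linarith
      · intro s
        have h1 : ∀ j ∈ s, 1 - (rho (p j) z₀ : ℝ) ≤ -Real.log (rho (p j) z₀) := by
          intro j _
          have := Real.log_le_sub_one_of_pos (hρ j)
          linarith
        refine (Finset.sum_le_sum h1).trans ?_
        rw [Finset.sum_neg_distrib, ← Real.log_prod (fun j _ => (hρ j).ne')]
        apply neg_le_neg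
        apply Real.log_le_log hpos
        have := hasProd_le_finset (h z₀ hz₀) (fun i => rho_le_one (hp i) hz₀') s
        have h2 : ((‖F z₀‖₊ : ℝ≥0) : ℝ) ≤ ((∏ j ∈ s, rho (p j) z₀ : ℝ≥0) : ℝ) := by exact_mod_cast this
        push_cast at h2
        simpa using h2
    have hc0 : 0 < 1 - ‖z₀‖ ^ 2 := by nlinarith [norm_nonneg z₀]
    apply Summable.of_nonneg_of_le (fun j => by linarith [hp j]) _ (hs1.mul_left (8 / (1 - ‖z₀‖ ^ 2)))
    intro j
    have h3 := rho_sq (hp j) hz₀'
    have hd := den_ne (hp j) hz₀'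
    have hn : 0 < ‖1 - conj (p j) * z₀‖ ^ 2 := pow_pos (norm_pos_iff.mpr hd) 2
    have hn4 : ‖1 - conj (p j) * z₀‖ ^ 2 ≤ 4 := by
      have : ‖1 - conj (p j) * z₀‖ ≤ 2 := by
        refine (norm_sub_le _ _).trans ?_
        rw [norm_one, norm_mul, RCLike.norm_conj]
        nlinarith [norm_nonneg (p j), norm_nonneg z₀, hp j]
      nlinarith [norm_nonneg (1 - conj (p j) * z₀)]
    have hr0 := (rho (p j) z₀).coe_nonneg
    have hr1 := rho_lt_one (hp j) hz₀'
    have h4 : (1 - ‖p j‖) * (1 - ‖z₀‖ ^ 2) / 4 ≤ 1 - (rho (p j) z₀ : ℝ) ^ 2 := by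
      rw [h3]
      have : (1 - ‖p j‖) ≤ (1 - ‖p j‖ ^ 2) := by nlinarith [norm_nonneg (p j), hp j]
      apply div_le_div₀ _ _ hn hn4
      · apply mul_nonneg _ hc0.le
        nlinarith [norm_nonneg (p j), hp j]
      · exact mul_le_mul_of_nonneg_right this hc0.le
    have h5 : 1 - (rho (p j) z₀ : ℝ) ^ 2 ≤ 2 * (1 - (rho (p j) z₀ : ℝ)) := by nlinarith
    rw [div_mul_eq_mul_div, le_div_iff₀ hc0]
    linarith
  -- split into zero and nonzero points
  let s : Set J := {j | p j = 0}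
  have hfin : Finite s := by
    have h0 : Tendsto (fun j => 1 - ‖p j‖) cofinite (𝓝 0) := hsum.tendsto_cofinite_zero
    have h1 : ∀ᶠ j in cofinite, 1 - ‖p j‖ < 1 := (tendsto_order.1 h0).2 1 one_pos
    have h2 : {j | ¬ (1 - ‖p j‖ < 1)}.Finite := h1
    apply (h2.subset _)
    intro j hj
    have hj' : p j = 0 := hj
    simp [hj']
  have : Fintype s := Fintype.ofFinite s
  let q : (sᶜ : Set J) → ℂ := fun j => p j
  have hq : ∀ j, q j ≠ 0 ∧ ‖q j‖ < 1 := fun j => ⟨j.2, hp j⟩
  have hqs : Summable (fun j => 1 - ‖q j‖) := hsum.comp_injective Subtype.val_injective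
  obtain ⟨hd, hprod⟩ := prod_diff q hq hqs
  set m := Fintype.card s with hm
  let D : ℂ → ℂ := fun z => z ^ m * ∏' j, factor (q j) z
  have hDd : DifferentiableOn ℂ D (Metric.ball 0 1) := by
    apply DifferentiableOn.mul _ hd
    fun_prop
  have hDn : ∀ z ∈ Metric.ball (0:ℂ) 1, ‖D z‖ = ‖F z‖ := by
    intro z hz
    have h1 : HasProd (fun j => rho (q j) z) ‖∏' j, factor (q j) z‖₊ := by
      have := (hprod z hz).map (nnnormHom : ℂ →*₀ ℝ≥0) continuous_nnnorm
      have e : (fun i => rho (q i) z) = (nnnormHom : ℂ →*₀ ℝ≥0) ∘ fun i => factor (q i) z := by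
        funext i
        exact (factor_nnnorm (hq i).1 z).symm
      rw [e]
      exact this
    have h2 : HasProd ((fun j => rho (p j) z) ∘ ((↑) : s → J)) (‖z‖₊ ^ m) := by
      have h3 : ((fun j => rho (p j) z) ∘ ((↑) : s → J)) = fun _ => ‖z‖₊ := by
        funext j
        show rho (p j) z = ‖z‖₊
        rw [show p j = 0 from j.2, rho_zero]
      rw [h3]
      have := hasProd_fintype (fun _ : s => ‖z‖₊)
      simpa [hm] using this
    have h4 : HasProd (fun j => rho (p j) z) (‖z‖₊ ^ m * ‖∏' j, factor (q j) z‖₊) :=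
      h2.mul_compl h1
    have h5 := h4.unique (h z hz)
    show ‖z ^ m * ∏' j, factor (q j) z‖ = ‖F z‖
    rw [norm_mul, norm_pow]
    have := congrArg (fun x : ℝ≥0 => (x : ℝ)) h5
    simpa using this
  -- F / D is a unimodular constant
  have hDz₀ : D z₀ ≠ 0 := by
    rw [← norm_ne_zero_iff, hDn z₀ hz₀]
    exact norm_ne_zero_iff.mpr hFz₀
  have hcont : ContinuousAt D z₀ :=
    (hDd.differentiableAt (Metric.isOpen_ball.mem_nhds hz₀)).continuousAt
  have hev : ∀ᶠ z in 𝓝 z₀, D z ≠ 0 ∧ z ∈ Metric.ball (0:ℂ) 1 :=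
    (hcont.eventually_ne hDz₀).and (Metric.isOpen_ball.mem_nhds hz₀)
  obtain ⟨ε, hε, hball⟩ := Metric.eventually_nhds_iff_ball.mp hev
  set c : ℂ := F z₀ / D z₀ with hc
  have hcn : ‖c‖ = 1 := by
    rw [hc, norm_div, hDn z₀ hz₀, div_self (norm_ne_zero_iff.mpr hFz₀)]
  have hloc : EqOn (fun z => F z / D z) (fun _ => c) (Metric.ball z₀ ε) := by
    have := Complex.eqOn_of_isPreconnected_of_isMaxOn_norm (f := fun z => F z / D z)
      (U := Metric.ball z₀ ε) (c := z₀) (convex_ball z₀ ε).isPreconnected Metric.isOpen_ball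
      (by
        apply DifferentiableOn.div
        · exact hF.mono (fun z hz => (hball z hz).2)
        · exact hDd.mono (fun z hz => (hball z hz).2)
        · exact fun z hz => (hball z hz).1)
      (Metric.mem_ball_self hε)
      (by
        intro z hz
        have hzb := hball z hz
        have e1 : ‖F z / D z‖ = 1 := by
          rw [norm_div, hDn z hzb.2, div_self]
          rw [← hDn z hzb.2]
          exact norm_ne_zero_iff.mpr hzb.1
        have e2 : ‖F z₀ / D z₀‖ = 1 := hcn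
        show ‖F z / D z‖ ≤ ‖F z₀ / D z₀‖
        rw [e1, e2])
    exact this
  have hglob : EqOn F (fun z => c * D z) (Metric.ball (0:ℂ) 1) := by
    apply AnalyticOnNhd.eqOn_of_preconnected_of_eventuallyEq
      (hF.analyticOnNhd Metric.isOpen_ball)
      ((hDd.const_mul c).analyticOnNhd Metric.isOpen_ball)
      (convex_ball (0:ℂ) 1).isPreconnected hz₀
    filter_upwards [Metric.ball_mem_nhds z₀ hε] with z hz
    have := hloc hz
    have h6 : F z / D z = c := this
    rw [← h6, div_mul_cancel₀ _ (hball z hz).1]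
  obtain ⟨θ, hθ⟩ : ∃ θ : ℝ, Complex.exp (θ * Complex.I) = c := by
    refine ⟨Complex.arg c, ?_⟩
    have := Complex.norm_mul_exp_arg_mul_I c
    rw [hcn] at this
    simpa using this
  refine ⟨θ, m, (sᶜ : Set J), q, inferInstance, hq, hqs, ?_⟩
  intro z hz
  refine ⟨∏' j, factor (q j) z, hprod z hz, ?_⟩
  rw [hglob hz, hθ]
  show c * (z ^ m * ∏' j, factor (q j) z) = _
  ring

lemma comp_blaschke {B C : ℂ → ℂ} (hB : IsBlaschkeProduct B) (hC : IsIndestructible C) :
    IsBlaschkeProduct (fun z => B (C z)) := by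
  have hCl := blaschke_lt_one hC.1
  have hmaps : MapsTo C (Metric.ball (0:ℂ) 1) (Metric.ball (0:ℂ) 1) := by
    intro z hz
    simpa using hCl z hz
  have hCd := blaschke_diff hC.1
  have hBd := blaschke_diff hB
  have hd : DifferentiableOn ℂ (fun z => B (C z)) (Metric.ball 0 1) := hBd.comp hCd hmaps
  -- nonconstant
  have hnc : ∃ z ∈ Metric.ball (0 : ℂ) 1, ∃ w ∈ Metric.ball (0 : ℂ) 1, B (C z) ≠ B (C w) := by
    by_contra hcon
    push Not at hcon
    rcases (hCd.analyticOnNhd Metric.isOpen_ball).is_constant_or_isOpen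
      (convex_ball (0:ℂ) 1).isPreconnected with hconst | hopen
    · obtain ⟨w, hw⟩ := hconst
      obtain ⟨⟨u, hu, v, hv, huv⟩, -⟩ := hC.1
      exact huv (by rw [hw u hu, hw v hv])
    · have ho := hopen (Metric.ball (0:ℂ) 1) Subset.rfl Metric.isOpen_ball
      have h0 : (0:ℂ) ∈ Metric.ball (0:ℂ) 1 := by simp
      have hEq : EqOn B (fun _ => B (C 0)) (Metric.ball (0:ℂ) 1) := by
        apply AnalyticOnNhd.eqOn_of_preconnected_of_eventuallyEq
          (hBd.analyticOnNhd Metric.isOpen_ball) analyticOnNhd_const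
          (convex_ball (0:ℂ) 1).isPreconnected (hmaps h0)
        filter_upwards [ho.mem_nhds (mem_image_of_mem C h0)] with w hw
        obtain ⟨z, hz, rfl⟩ := hw
        exact hcon z hz 0 h0
      obtain ⟨⟨u, hu, v, hv, huv⟩, -⟩ := hB
      exact huv (by rw [hEq hu, hEq hv])
  obtain ⟨ι, a, hι, ha, hmod⟩ := blaschke_modulus hB
  -- the zeros
  have hz : ∀ i : ι, ∃ (κ : Type) (b : κ → ℂ), Countable κ ∧ (∀ k, ‖b k‖ < 1) ∧
      ∀ z ∈ Metric.ball (0:ℂ) 1, HasProd (fun k => rho (b k) z) (rho (a i) (C z)) := by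
    intro i
    obtain ⟨κ, b, h1, h2, h3⟩ := blaschke_modulus (hC.2 0 (a i) (ha i))
    refine ⟨κ, b, h1, h2, fun z hz => ?_⟩
    have := h3 z hz
    rwa [rho_swap_auto] at this
  choose κ b hκ hb hprod using hz
  refine blaschke_of_modulus hd hnc (J := Σ i, κ i) inferInstance (fun j => b j.1 j.2)
    (fun j => hb j.1 j.2) ?_
  intro z hz
  obtain ⟨x, hx⟩ := multipliable_of_le_one
    (f := fun j : Σ i, κ i => rho (b j.1 j.2) z)
    (fun j => rho_le_one (hb j.1 j.2) (by simpa using hz))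
  have h1 := hx.sigma (fun i => hprod i z hz)
  have h2 := h1.unique (hmod (C z) (hmaps hz))
  rw [← h2]
  exact hx

/-- **Positive answer to Q1.** If `B` and `C` are indestructible Blaschke products, then so is
`B ∘ C`. -/
theorem result : ∀ B C : ℂ → ℂ, IsIndestructible B → IsIndestructible C →
    IsIndestructible (B ∘ C) := by
  intro B C hB hC
  have h1 : IsBlaschkeProduct (B ∘ C) := comp_blaschke (B := B) hB.1 hC
  refine ⟨h1, ?_⟩
  intro φ a ha
  exact comp_blaschke (B := fun z => auto φ a (B z)) (hB.2 φ a ha) hC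

end Pool.Agent.Results.MP_4d1c53_an.CompositionIndestructible
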